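import Mathlib

/-!
# Collatz's original permutation: the finite cycles are sparse

For the permutation `f(3n) = 2n`, `f(3n-1) = 4n-1`, `f(3n-2) = 4n-3` of the positive integers
(Collatz 1932, Klamkin 1963) the finite cycles contained in `[1, x]` have at most
`9 x ^ (75 / 76)` elements in total; in particular there are at most that many such cycles.

Proof. Let `A` be the union of these cycles. As `f` permutes `A`, the product of `m / f(m)` over
`A` is `1`. Up to a factor `x ^ O(1)` the ratio `m / f(m)` is `3/2` or `3/4`, according to the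
residue of `m` modulo `3`; let `W_k(m)` be the square root of the product of these numbers along the
first `k` steps. By the inequality `exp t >= 1 + t` the sum of `W_k` over `A` is at least
`|A| - O(k log x)`. On the other hand `W_k(m)` depends on `m` modulo `3 ^ k` only, the `3 ^ k`
classes correspond to the `3 ^ k` words, and so the sum of `W_k` over `[1, x]` is at most
`2 x rho ^ k`, `rho = (sqrt(3/2) + 2 sqrt(3/4)) / 3 < 0.98562`.
-/

open Finset

namespace Pool.Agent.Results.MP_9010c3_nt.SparseCycles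

/-- Collatz's original permutation: `f(3n) = 2n`, `f(3n-2) = 4n-3`, `f(3n-1) = 4n-1`
(and `f(0) = 0`). -/
def f (m : ℕ) : ℕ :=
  if m % 3 = 0 then 2 * (m / 3)
  else if m % 3 = 1 then 4 * (m / 3) + 1
  else 4 * (m / 3) + 3

/-- `C` is a finite cycle of `f` on the positive integers. -/
def IsCycle (C : Set ℕ) : Prop :=
  ∃ m k : ℕ, 1 ≤ m ∧ 1 ≤ k ∧ f^[k] m = m ∧ C = {n | ∃ j, j < k ∧ n = f^[j] m}

theorem f_inj : Function.Injective f := by
  intro a b h
  unfold f at h
  split_ifs at h <;> omega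

theorem f_pos {m : ℕ} (h : 1 ≤ m) : 1 ≤ f m := by
  unfold f
  split_ifs <;> omega

theorem f_add (m t : ℕ) : f (m + 3 * t) = f m + (if m % 3 = 0 then 2 else 4) * t := by
  unfold f
  split_ifs <;> omega

/-- the square root of the ideal ratio -/
noncomputable def al (m : ℕ) : ℝ := if m % 3 = 0 then √(3 / 2) else √(3 / 4)

theorem al_pos (m : ℕ) : 0 < al m := by
  unfold al
  split_ifs <;> positivity

theorem al_add (m t : ℕ) : al (m + 3 * t) = al m := by
  unfold al
  have : (m + 3 * t) % 3 = m % 3 := by omega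
  rw [this]

/-- the weight along `k` steps -/
noncomputable def W (k m : ℕ) : ℝ := ∏ j ∈ range k, al (f^[j] m)

theorem W_pos (k m : ℕ) : 0 < W k m := prod_pos fun _ _ => al_pos _

theorem W_succ (k m : ℕ) : W (k + 1) m = al m * W k (f m) := by
  unfold W
  rw [prod_range_succ']
  simp only [Function.iterate_succ_apply, Function.iterate_zero, id]
  ring

theorem W_per (k : ℕ) : ∀ m t : ℕ, W k (m + 3 ^ k * t) = W k m := by
  induction k with
  | zero => intro m t; simp [W]
  | succ k ih =>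
    intro m t
    have e : m + 3 ^ (k + 1) * t = m + 3 * (3 ^ k * t) := by ring
    rw [W_succ, W_succ, e, al_add, f_add,
      show (if m % 3 = 0 then 2 else 4) * (3 ^ k * t) =
        3 ^ k * ((if m % 3 = 0 then 2 else 4) * t) by ring, ih]

theorem sum_three (g : ℕ → ℝ) (n : ℕ) : ∑ m ∈ range (3 * n), g m =
    ∑ t ∈ range n, (g (3 * t) + g (3 * t + 1) + g (3 * t + 2)) := by
  induction n with
  | zero => simp
  | succ n ih =>
    rw [show 3 * (n + 1) = 3 * n + 1 + 1 + 1 by ring, sum_range_succ, sum_range_succ,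
      sum_range_succ, ih, sum_range_succ]
    ring

theorem sum_affine (g : ℕ → ℝ) (N : ℕ) (hN : 0 < N) (hg : ∀ m t, g (m + N * t) = g m)
    (c b : ℕ) (hc : Nat.Coprime N c) : ∑ t ∈ range N, g (c * t + b) = ∑ t ∈ range N, g t := by
  have h1 : ∀ t, g (c * t + b) = g ((c * t + b) % N) := by
    intro t
    conv_lhs => rw [← Nat.mod_add_div (c * t + b) N]
    exact hg _ _
  have hinj : Set.InjOn (fun t => (c * t + b) % N) (range N : Finset ℕ) := by
    intro s hs t ht hst
    have e1 : c * s + b ≡ c * t + b [MOD N] := hst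
    have e2 : c * s ≡ c * t [MOD N] := Nat.ModEq.add_right_cancel' b e1
    have e3 : s ≡ t [MOD N] := Nat.ModEq.cancel_left_of_coprime hc e2
    exact Nat.ModEq.eq_of_lt_of_lt e3 (by simpa using hs) (by simpa using ht)
  have himg : (range N).image (fun t => (c * t + b) % N) = range N := by
    apply eq_of_subset_of_card_le
    · intro y hy
      obtain ⟨t, -, rfl⟩ := mem_image.1 hy
      exact mem_range.2 (Nat.mod_lt _ hN)
    · rw [card_image_of_injOn hinj]
  calc ∑ t ∈ range N, g (c * t + b) = ∑ t ∈ range N, g ((c * t + b) % N) :=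
        sum_congr rfl fun t _ => h1 t
    _ = ∑ y ∈ (range N).image (fun t => (c * t + b) % N), g y := by
        rw [sum_image hinj]
    _ = _ := by rw [himg]

/-- the total weight over a period -/
theorem sum_W (k : ℕ) : ∑ m ∈ range (3 ^ k), W k m = (√(3 / 2) + 2 * √(3 / 4)) ^ k := by
  induction k with
  | zero => simp [W]
  | succ k ih =>
    have h3 : 0 < 3 ^ k := by positivity
    have h2 : Nat.Coprime (3 ^ k) 2 := Nat.Coprime.pow_left k (by norm_num)
    have h4 : Nat.Coprime (3 ^ k) 4 := Nat.Coprime.pow_left k (by norm_num)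
    have e0 : ∀ t, W (k + 1) (3 * t) = √(3 / 2) * W k (2 * t + 0) := by
      intro t
      have a1 : al (3 * t) = √(3 / 2) := by unfold al; rw [if_pos (by omega)]
      have a2 : f (3 * t) = 2 * t + 0 := by unfold f; split_ifs <;> omega
      rw [W_succ, a1, a2]
    have e1 : ∀ t, W (k + 1) (3 * t + 1) = √(3 / 4) * W k (4 * t + 1) := by
      intro t
      have a1 : al (3 * t + 1) = √(3 / 4) := by unfold al; rw [if_neg (by omega)]
      have a2 : f (3 * t + 1) = 4 * t + 1 := by unfold f; split_ifs <;> omega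
      rw [W_succ, a1, a2]
    have e2 : ∀ t, W (k + 1) (3 * t + 2) = √(3 / 4) * W k (4 * t + 3) := by
      intro t
      have a1 : al (3 * t + 2) = √(3 / 4) := by unfold al; rw [if_neg (by omega)]
      have a2 : f (3 * t + 2) = 4 * t + 3 := by unfold f; split_ifs <;> omega
      rw [W_succ, a1, a2]
    rw [pow_succ' 3 k, sum_three]
    simp only [e0, e1, e2]
    rw [sum_add_distrib, sum_add_distrib, ← mul_sum, ← mul_sum, ← mul_sum,
      sum_affine (W k) _ h3 (W_per k) 2 0 h2, sum_affine (W k) _ h3 (W_per k) 4 1 h4,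
      sum_affine (W k) _ h3 (W_per k) 4 3 h4, ih]
    ring

theorem sum_W_mul (k q : ℕ) : ∑ m ∈ range (3 ^ k * q), W k m =
    q * (√(3 / 2) + 2 * √(3 / 4)) ^ k := by
  induction q with
  | zero => simp
  | succ q ih =>
    rw [Nat.mul_succ, sum_range_add, ih]
    have : ∑ x ∈ range (3 ^ k), W k (3 ^ k * q + x) = ∑ x ∈ range (3 ^ k), W k x :=
      sum_congr rfl fun x _ => by rw [add_comm, W_per]
    rw [this, sum_W]
    push_cast
    ring

/-- the numerical value of the rate -/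
theorem rho_le : (√(3 / 2) + 2 * √(3 / 4)) / 3 ≤ (0.98562 : ℝ) := by
  have h1 : √(3 / 2 : ℝ) ≤ 1.22475 := by
    rw [Real.sqrt_le_left (by norm_num)]
    norm_num
  have h2 : √(3 / 4 : ℝ) ≤ 0.866026 := by
    rw [Real.sqrt_le_left (by norm_num)]
    norm_num
  linarith

/-- comparison of the ratio with the ideal one -/
theorem ratio_le {m : ℕ} (hm : 1 ≤ m) :
    Real.log m - Real.log (f m) ≤ 2 * Real.log (al m) + 1 / m := by
  have hm0 : (0 : ℝ) < m := by exact_mod_cast hm
  have hf0 : (0 : ℝ) < f m := by exact_mod_cast f_pos hm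
  have key : ∀ a : ℝ, 0 < a → (m : ℝ) ≤ a * (1 + 1 / m) * f m → al m = √a →
      Real.log m - Real.log (f m) ≤ 2 * Real.log (al m) + 1 / m := by
    intro a ha h1 h2
    rw [h2, Real.log_sqrt ha.le]
    have h3 : Real.log m ≤ Real.log (a * (1 + 1 / m) * f m) := Real.log_le_log hm0 h1
    rw [Real.log_mul (by positivity) hf0.ne', Real.log_mul ha.ne' (by positivity)] at h3
    have h4 : Real.log (1 + 1 / (m : ℝ)) ≤ 1 / m := by
      have := Real.log_le_sub_one_of_pos (show (0 : ℝ) < 1 + 1 / m by positivity)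
      linarith
    linarith
  have hexp : ∀ a : ℝ, a * (1 + 1 / m) * f m = a * f m + a * (f m / m) := by
    intro a; field_simp
  have hrec : (0 : ℝ) ≤ f m / m := by positivity
  rcases (show m % 3 = 0 ∨ m % 3 = 1 ∨ m % 3 = 2 by omega) with h | h | h
  · refine key (3 / 2) (by norm_num) ?_ (by unfold al; rw [if_pos h])
    have e : 3 * f m = 2 * m := by unfold f; rw [if_pos h]; omega
    have e' : (3 : ℝ) * f m = 2 * m := by exact_mod_cast e
    rw [hexp]
    nlinarith
  · refine key (3 / 4) (by norm_num) ?_ (by unfold al; rw [if_neg (by omega)])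
    have e : 3 * f m + 1 = 4 * m := by unfold f; rw [if_neg (by omega), if_pos h]; omega
    have e' : (3 : ℝ) * f m + 1 = 4 * m := by exact_mod_cast e
    rw [hexp]
    have e2 : (m : ℝ) ≤ f m := by
      have : m ≤ f m := by omega
      exact_mod_cast this
    have e3 : (1 : ℝ) ≤ f m / m := by rw [le_div_iff₀ hm0]; linarith
    nlinarith
  · refine key (3 / 4) (by norm_num) ?_ (by unfold al; rw [if_neg (by omega)])
    have e : 3 * f m = 4 * m + 1 := by
      unfold f; rw [if_neg (by omega), if_neg (by omega)]; omega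
    have e' : (3 : ℝ) * f m = 4 * m + 1 := by exact_mod_cast e
    rw [hexp]
    nlinarith

/-- the main estimate for an invariant finite set -/
theorem main_est (x : ℕ) (A : Finset ℕ) (hA : A ⊆ Icc 1 x)
    (hf : ∀ m ∈ A, f m ∈ A) (k : ℕ) : (A.card : ℝ) ≤
      ∑ m ∈ range (x + 1), W k m + k * (1 + Real.log x) / 2 := by
  have himg : A.image f = A := by
    apply eq_of_subset_of_card_le
    · intro y hy
      obtain ⟨m, hm, rfl⟩ := mem_image.1 hy
      exact hf m hm
    · rw [card_image_of_injective _ f_inj]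
  have hinv : ∀ φ : ℕ → ℝ, ∑ m ∈ A, φ (f m) = ∑ m ∈ A, φ m := by
    intro φ
    conv_rhs => rw [← himg]
    rw [sum_image fun a _ b _ h => f_inj h]
  have hinv' : ∀ (φ : ℕ → ℝ) (j : ℕ), ∑ m ∈ A, φ (f^[j] m) = ∑ m ∈ A, φ m := by
    intro φ j
    induction j with
    | zero => rfl
    | succ j ih =>
      rw [← ih, ← hinv (fun m => φ (f^[j] m))]
      rfl
  have h1 : ∀ m, 1 + ∑ j ∈ range k, Real.log (al (f^[j] m)) ≤ W k m := by
    intro m
    have e1 : Real.log (W k m) = ∑ j ∈ range k, Real.log (al (f^[j] m)) := by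
      unfold W
      exact Real.log_prod fun j _ => (al_pos _).ne'
    rw [← e1, ← Real.exp_log (W_pos k m), Real.log_exp]
    have := Real.add_one_le_exp (Real.log (W k m))
    linarith
  have h2 : (A.card : ℝ) + k * ∑ m ∈ A, Real.log (al m) ≤ ∑ m ∈ A, W k m := by
    calc (A.card : ℝ) + k * ∑ m ∈ A, Real.log (al m)
        = ∑ m ∈ A, (1 + ∑ j ∈ range k, Real.log (al (f^[j] m))) := by
          rw [sum_add_distrib, sum_comm]
          simp only [hinv' (fun m => Real.log (al m)), sum_const, card_range, nsmul_eq_mul,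
            mul_one]
      _ ≤ _ := sum_le_sum fun m _ => h1 m
  have h3 : 0 ≤ 2 * ∑ m ∈ A, Real.log (al m) + (1 + Real.log x) := by
    have e1 : ∑ m ∈ A, (Real.log m - Real.log (f m)) = 0 := by
      rw [sum_sub_distrib, hinv (fun m => Real.log m), sub_self]
    have e2 : ∑ m ∈ A, (Real.log m - Real.log (f m)) ≤
        ∑ m ∈ A, (2 * Real.log (al m) + 1 / (m : ℝ)) :=
      sum_le_sum fun m hm => ratio_le (mem_Icc.1 (hA hm)).1
    rw [e1, sum_add_distrib, ← mul_sum] at e2
    have e3 : ∑ m ∈ A, 1 / (m : ℝ) ≤ 1 + Real.log x := by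
      calc ∑ m ∈ A, 1 / (m : ℝ) ≤ ∑ m ∈ Icc 1 x, 1 / (m : ℝ) :=
            sum_le_sum_of_subset_of_nonneg hA fun _ _ _ => by positivity
        _ = ((harmonic x : ℚ) : ℝ) := by
            rw [harmonic_eq_sum_Icc]
            push_cast
            simp
        _ ≤ _ := harmonic_le_one_add_log x
    linarith
  have h4 : ∑ m ∈ A, W k m ≤ ∑ m ∈ range (x + 1), W k m := by
    apply sum_le_sum_of_subset_of_nonneg
    · intro m hm
      have := (mem_Icc.1 (hA hm)).2
      exact mem_range.2 (by omega)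
    · intro m _ _
      exact (W_pos k m).le
  have hk : (0 : ℝ) ≤ k := by positivity
  nlinarith

theorem card_le (x : ℕ) (hx : 1 ≤ x) (A : Finset ℕ) (hA : A ⊆ Icc 1 x)
    (hf : ∀ m ∈ A, f m ∈ A) : (A.card : ℝ) ≤ 9 * (x : ℝ) ^ ((75 : ℝ) / 76) := by
  set k := Nat.log 3 x with hk
  have hk1 : 3 ^ k ≤ x := Nat.pow_log_le_self 3 (by omega)
  have hk2 : x < 3 ^ (k + 1) := Nat.lt_pow_succ_log_self (by norm_num) x
  have hx0 : (0 : ℝ) < x := by exact_mod_cast hx
  have hx1 : (1 : ℝ) ≤ x := by exact_mod_cast hx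
  have hmain := main_est x A hA hf k
  -- the sum of the weights
  set ρ : ℝ := √(3 / 2) + 2 * √(3 / 4) with hρ
  have hρ0 : 0 ≤ ρ := by positivity
  have hsum : ∑ m ∈ range (x + 1), W k m ≤ 2 * x * (0.98562 : ℝ) ^ k := by
    have e1 : x + 1 ≤ 3 ^ k * (x / 3 ^ k + 1) := by
      have := Nat.lt_mul_div_succ x (show 0 < 3 ^ k by positivity)
      omega
    have e2 : ∑ m ∈ range (x + 1), W k m ≤ ∑ m ∈ range (3 ^ k * (x / 3 ^ k + 1)), W k m := by
      apply sum_le_sum_of_subset_of_nonneg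
      · intro m hm
        rw [mem_range] at hm ⊢
        omega
      · intro m _ _
        exact (W_pos k m).le
    have e3 : ((x / 3 ^ k + 1 : ℕ) : ℝ) ≤ 2 * x / 3 ^ k := by
      have a1 : ((x / 3 ^ k : ℕ) : ℝ) ≤ (x : ℝ) / ((3 ^ k : ℕ) : ℝ) := Nat.cast_div_le
      have a2 : (1 : ℝ) ≤ (x : ℝ) / 3 ^ k := by
        rw [le_div_iff₀ (by positivity), one_mul]
        exact_mod_cast hk1
      push_cast at a1 ⊢
      have a3 : 2 * (x : ℝ) / 3 ^ k = x / 3 ^ k + x / 3 ^ k := by ring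
      linarith
    calc ∑ m ∈ range (x + 1), W k m ≤ ((x / 3 ^ k + 1 : ℕ) : ℝ) * ρ ^ k := by
          rw [← sum_W_mul]; exact e2
      _ ≤ 2 * x / 3 ^ k * ρ ^ k := mul_le_mul_of_nonneg_right e3 (by positivity)
      _ = 2 * x * (ρ / 3) ^ k := by rw [div_pow]; ring
      _ ≤ _ := by
          apply mul_le_mul_of_nonneg_left _ (by positivity)
          exact pow_le_pow_left₀ (by positivity) rho_le k
  -- the power of `x`
  have hpow : (x : ℝ) * (0.98562 : ℝ) ^ (k + 1) ≤ (x : ℝ) ^ ((75 : ℝ) / 76) := by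
    have b1 : ((0.98562 : ℝ) ^ (k + 1)) ^ 76 * x ≤ 1 := by
      have b2 : (0.98562 : ℝ) ^ 76 ≤ 1 / 3 := by norm_num
      have b3 : (x : ℝ) ≤ 3 ^ (k + 1) := by exact_mod_cast hk2.le
      calc ((0.98562 : ℝ) ^ (k + 1)) ^ 76 * x = ((0.98562 : ℝ) ^ 76) ^ (k + 1) * x := by
            rw [← pow_mul, ← pow_mul, mul_comm (k + 1) 76]
        _ ≤ (1 / 3) ^ (k + 1) * 3 ^ (k + 1) := by
            apply mul_le_mul _ b3 hx0.le (by positivity)
            exact pow_le_pow_left₀ (by positivity) b2 _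
        _ = 1 := by rw [← mul_pow]; norm_num
    have b4 : ((x : ℝ) * (0.98562 : ℝ) ^ (k + 1)) ^ 76 ≤ (x : ℝ) ^ 75 := by
      calc ((x : ℝ) * (0.98562 : ℝ) ^ (k + 1)) ^ 76
          = (x : ℝ) ^ 75 * (((0.98562 : ℝ) ^ (k + 1)) ^ 76 * x) := by ring
        _ ≤ (x : ℝ) ^ 75 * 1 := mul_le_mul_of_nonneg_left b1 (by positivity)
        _ = _ := mul_one _
    have b5 : ((x : ℝ) ^ ((75 : ℝ) / 76)) ^ 76 = (x : ℝ) ^ 75 := by
      rw [← Real.rpow_natCast, ← Real.rpow_mul hx0.le]
      norm_num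
    have b6 : (0 : ℝ) ≤ (x : ℝ) ^ ((75 : ℝ) / 76) := by positivity
    rw [← b5] at b4
    exact le_of_pow_le_pow_left₀ (by norm_num) b6 b4
  -- the error term
  have hlog : Real.log x ≤ 3 * (x : ℝ) ^ ((1 : ℝ) / 3) := by
    have := Real.log_le_rpow_div hx0.le (show (0 : ℝ) < 1 / 3 by norm_num)
    calc Real.log x ≤ (x : ℝ) ^ ((1 : ℝ) / 3) / (1 / 3) := this
      _ = _ := by ring
  have hlog0 : 0 ≤ Real.log x := Real.log_nonneg hx1
  have hkl : (k : ℝ) ≤ Real.log x := by
    have c1 : (3 : ℝ) ^ k ≤ x := by exact_mod_cast hk1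
    have c2 : Real.log ((3 : ℝ) ^ k) ≤ Real.log x := Real.log_le_log (by positivity) c1
    rw [Real.log_pow] at c2
    have c3 : (1 : ℝ) ≤ Real.log 3 := by
      rw [Real.le_log_iff_exp_le (by norm_num)]
      have := Real.exp_one_lt_d9
      linarith
    have hk0 : (0 : ℝ) ≤ k := by positivity
    nlinarith
  have hy1 : (1 : ℝ) ≤ (x : ℝ) ^ ((1 : ℝ) / 3) := Real.one_le_rpow hx1 (by norm_num)
  have herr : k * (1 + Real.log x) / 2 ≤ 6 * (x : ℝ) ^ ((75 : ℝ) / 76) := by
    set y : ℝ := (x : ℝ) ^ ((1 : ℝ) / 3) with hy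
    have d1 : k * (1 + Real.log x) ≤ (3 * y) * (4 * y) := by
      apply mul_le_mul (hkl.trans hlog) (by linarith) (by linarith) (by linarith)
    have d2 : y * y ≤ (x : ℝ) ^ ((75 : ℝ) / 76) := by
      rw [hy, ← Real.rpow_add hx0]
      exact Real.rpow_le_rpow_of_exponent_le hx1 (by norm_num)
    nlinarith
  have hfin : 2 * x * (0.98562 : ℝ) ^ k ≤ 3 * (x : ℝ) ^ ((75 : ℝ) / 76) := by
    rw [pow_succ] at hpow
    have hp : (0 : ℝ) ≤ x * (0.98562 : ℝ) ^ k := by positivity
    nlinarith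
  linarith

/-- The finite cycles of Collatz's original permutation which are contained in `[1, x]` have
together at most `9 x ^ (75 / 76)` elements; in particular their number is at most
`9 x ^ (75 / 76)`. -/
theorem result (x : ℕ) (hx : 1 ≤ x) :
    ((⋃₀ {C : Set ℕ | IsCycle C ∧ C ⊆ Set.Icc 1 x}).ncard : ℝ) ≤ 9 * (x : ℝ) ^ ((75 : ℝ) / 76) ∧
    ({C : Set ℕ | IsCycle C ∧ C ⊆ Set.Icc 1 x}.ncard : ℝ) ≤ 9 * (x : ℝ) ^ ((75 : ℝ) / 76) := by
  classical
  set A : Finset ℕ := (Icc 1 x).filter (fun m => m ∈ ⋃₀ {C : Set ℕ | IsCycle C ∧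
    C ⊆ Set.Icc 1 x}) with hA
  have hmem : ∀ m, m ∈ A ↔ m ∈ ⋃₀ {C : Set ℕ | IsCycle C ∧ C ⊆ Set.Icc 1 x} := by
    intro m
    rw [hA, mem_filter]
    constructor
    · exact fun h => h.2
    · rintro ⟨C, ⟨hC1, hC2⟩, hm⟩
      have := hC2 hm
      exact ⟨mem_Icc.2 this, C, ⟨hC1, hC2⟩, hm⟩
  have hAeq : (A : Set ℕ) = ⋃₀ {C : Set ℕ | IsCycle C ∧ C ⊆ Set.Icc 1 x} := by
    ext m
    rw [mem_coe]
    exact hmem m
  have hAf : ∀ m ∈ A, f m ∈ A := by
    intro m hm
    rw [hmem] at hm ⊢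
    obtain ⟨C, ⟨hC1, hC2⟩, hm⟩ := hm
    refine ⟨C, ⟨hC1, hC2⟩, ?_⟩
    obtain ⟨n, k, hn, hk, hfk, rfl⟩ := hC1
    obtain ⟨j, hj, rfl⟩ := hm
    rcases Nat.lt_or_ge (j + 1) k with h | h
    · exact ⟨j + 1, h, by rw [Function.iterate_succ_apply']⟩
    · have : j + 1 = k := by omega
      refine ⟨0, by omega, ?_⟩
      calc f (f^[j] n) = f^[j + 1] n := (Function.iterate_succ_apply' f j n).symm
        _ = n := by rw [this, hfk]
        _ = f^[0] n := rfl
  have hcard := card_le x hx A (filter_subset _ _) hAf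
  have h1 : (⋃₀ {C : Set ℕ | IsCycle C ∧ C ⊆ Set.Icc 1 x}).ncard = A.card := by
    rw [← hAeq, Set.ncard_coe_finset]
  refine ⟨by rw [h1]; exact hcard, ?_⟩
  -- the cycles
  have h2 : {C : Set ℕ | IsCycle C ∧ C ⊆ Set.Icc 1 x} ⊆
      (fun m => {n : ℕ | ∃ j, n = f^[j] m}) '' (A : Set ℕ) := by
    rintro C ⟨hC1, hC2⟩
    obtain ⟨m, k, hm, hk, hfk, hC⟩ := hC1
    have hmC : m ∈ C := by rw [hC]; exact ⟨0, by omega, rfl⟩
    refine ⟨m, ?_, ?_⟩
    · rw [mem_coe, hmem]
      exact ⟨C, ⟨⟨m, k, hm, hk, hfk, hC⟩, hC2⟩, hmC⟩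
    · rw [hC]
      ext n
      constructor
      · rintro ⟨j, rfl⟩
        refine ⟨j % k, Nat.mod_lt _ (by omega), ?_⟩
        have hp : Function.IsPeriodicPt f k m := hfk
        exact (hp.iterate_mod_apply j).symm
      · rintro ⟨j, -, rfl⟩
        exact ⟨j, rfl⟩
  have h3 : {C : Set ℕ | IsCycle C ∧ C ⊆ Set.Icc 1 x}.ncard ≤ A.card := by
    calc {C : Set ℕ | IsCycle C ∧ C ⊆ Set.Icc 1 x}.ncard
        ≤ ((fun m => {n : ℕ | ∃ j, n = f^[j] m}) '' (A : Set ℕ)).ncard :=
          Set.ncard_le_ncard h2 (A.finite_toSet.image _)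
      _ ≤ (A : Set ℕ).ncard := Set.ncard_image_le A.finite_toSet
      _ = A.card := Set.ncard_coe_finset A
  have h4 : ({C : Set ℕ | IsCycle C ∧ C ⊆ Set.Icc 1 x}.ncard : ℝ) ≤ (A.card : ℝ) := by
    exact_mod_cast h3
  exact h4.trans hcard

end Pool.Agent.Results.MP_9010c3_nt.SparseCycles
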